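import Mathlib

/-!
Exponential stability does not imply `L₂`-stability for Lur'e systems, even for the first-order
system `x' = x - φ(x)` with a continuous nonlinearity `φ` in the sector `[1,2]`.
-/

namespace Pool.Agent.Results.MP_d56d33_an.NotEquivalent

open MeasureTheory Set Filter Topology
open scoped ENNReal

/-- The companion matrix of `s^n + p_{n-1} s^{n-1} + ... + p_0`. -/
def companion {n : ℕ} (p : Fin n → ℝ) : Matrix (Fin n) (Fin n) ℝ :=
  Matrix.of fun i j => if (i : ℕ) + 1 = n then -p j else if (j : ℕ) = i + 1 then 1 else 0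

/-- The vector `b = (0,...,0,1)`. -/
def bvec (n : ℕ) : Fin n → ℝ := fun i => if (i : ℕ) + 1 = n then 1 else 0

/-- The vector `c = (q_0,...,q_m,0,...,0)`. -/
def cvec (n m : ℕ) (q : ℕ → ℝ) : Fin n → ℝ := fun i => if (i : ℕ) ≤ m then q i else 0

/-- Admissible gains `k`: absolutely continuous on bounded intervals and bounded below by a positive
constant on `[0,∞)`. -/
def AdmissibleGain (k : ℝ → ℝ) : Prop :=
  (∃ ε : ℝ, 0 < ε ∧ ∀ t, 0 ≤ t → ε ≤ k t) ∧
    ∀ T : ℝ, 0 ≤ T → AbsolutelyContinuousOnInterval k 0 T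

/-- Admissible nonlinearities `φ`: `φ(0) = 0` and the sector condition. -/
def AdmissibleNonlinearity (φ : ℝ → ℝ) : Prop :=
  φ 0 = 0 ∧ ∃ η₁ η₂ : ℝ, 0 < η₁ ∧ η₁ < η₂ ∧
    ∀ σ : ℝ, σ ≠ 0 → η₁ * σ ^ 2 ≤ σ * φ σ ∧ σ * φ σ ≤ η₂ * σ ^ 2

/-- `x` is a solution on `[t₀,T)` of `x' = A_o x - k(t) b φ(cᵀx) + f(t) b`: it is locally absolutely
continuous, `φ(cᵀx)` is locally integrable and the equation holds almost everywhere. -/
def IsSolution {n : ℕ} (p : Fin n → ℝ) (m : ℕ) (q : ℕ → ℝ) (k φ f : ℝ → ℝ) (t₀ : ℝ) (T : EReal)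
    (x : ℝ → EuclideanSpace ℝ (Fin n)) : Prop :=
  (∀ s : ℝ, t₀ ≤ s → (s : EReal) < T → AbsolutelyContinuousOnInterval x t₀ s) ∧
  (∀ s : ℝ, t₀ ≤ s → (s : EReal) < T →
    IntervalIntegrable (fun t => φ (cvec n m q ⬝ᵥ (x t).ofLp)) volume t₀ s) ∧
  ∀ᵐ t : ℝ, t₀ < t → (t : EReal) < T →
    HasDerivAt x (WithLp.toLp 2 ((companion p).mulVec (x t).ofLp
      - (k t * φ (cvec n m q ⬝ᵥ (x t).ofLp)) • bvec n + f t • bvec n)) t

/-- Exponential stability of the null solution of the unforced system. -/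
def ExpStable {n : ℕ} (p : Fin n → ℝ) (m : ℕ) (q : ℕ → ℝ) (k φ : ℝ → ℝ) : Prop :=
  ∃ ε₁ ε₂ : ℝ, 0 < ε₁ ∧ 0 < ε₂ ∧ ∀ (t₀ : ℝ) (T : EReal) (x : ℝ → EuclideanSpace ℝ (Fin n)),
    0 ≤ t₀ → (t₀ : EReal) < T → IsSolution p m q k φ (fun _ => 0) t₀ T x →
    ∀ t : ℝ, t₀ ≤ t → (t : EReal) < T → ‖x t‖ ≤ ε₂ * ‖x t₀‖ * Real.exp (-ε₁ * (t - t₀))

/-- `L₂`-stability of the forced system. -/
def L2Stable {n : ℕ} (p : Fin n → ℝ) (m : ℕ) (q : ℕ → ℝ) (k φ : ℝ → ℝ) : Prop :=
  ∀ η₁ η₂ : ℝ, 0 ≤ η₁ → 0 ≤ η₂ → ∃ η₃ : ℝ,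
    ∀ (t₀ : ℝ) (T : EReal) (f : ℝ → ℝ) (x : ℝ → EuclideanSpace ℝ (Fin n)),
      0 ≤ t₀ → (t₀ : EReal) < T → Measurable f → IsSolution p m q k φ f t₀ T x →
      ‖x t₀‖ < η₁ → ∫⁻ t in Ioi (0:ℝ), ENNReal.ofReal (f t ^ 2) < ENNReal.ofReal η₂ →
      ∫⁻ t in {t : ℝ | t₀ < t ∧ (t : EReal) < T}, ENNReal.ofReal (‖x t‖ ^ 2) ≤ ENNReal.ofReal η₃

/-! ### The function `K` -/

/-- dip positions -/
noncomputable def xj (j : ℕ) : ℝ := (1 / 2) ^ j

/-- dip widths -/
noncomputable def wj (j : ℕ) : ℝ := (1 / 4) ^ j / (j + 1)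

lemma xj_pos (j : ℕ) : 0 < xj j := by unfold xj; positivity
lemma wj_pos (j : ℕ) : 0 < wj j := by unfold wj; positivity
lemma xj_le (j : ℕ) : xj j ≤ 1 := by
  unfold xj; exact pow_le_one₀ (by norm_num) (by norm_num)

/-- the summands of `K` -/
noncomputable def Kj (j : ℕ) (x : ℝ) : ℝ := xj j * (1 / 2 + Real.arctan ((x - xj j) / wj j) / Real.pi)

/-- the derivatives of the summands -/
noncomputable def kj (j : ℕ) (x : ℝ) : ℝ := xj j * (wj j / (wj j ^ 2 + (x - xj j) ^ 2) / Real.pi)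

lemma Kj_nonneg (j : ℕ) (x : ℝ) : 0 ≤ Kj j x := by
  unfold Kj
  apply mul_nonneg (xj_pos j).le
  have h := Real.neg_pi_div_two_lt_arctan ((x - xj j) / wj j)
  have : -(1 / 2) < Real.arctan ((x - xj j) / wj j) / Real.pi := by
    rw [lt_div_iff₀ Real.pi_pos]; linarith
  linarith

lemma Kj_le (j : ℕ) (x : ℝ) : Kj j x ≤ xj j := by
  unfold Kj
  have h := Real.arctan_lt_pi_div_two ((x - xj j) / wj j)
  have h2 : Real.arctan ((x - xj j) / wj j) / Real.pi < 1 / 2 := by
    rw [div_lt_iff₀ Real.pi_pos]; linarith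
  nlinarith [xj_pos j]

lemma kj_nonneg (j : ℕ) (x : ℝ) : 0 ≤ kj j x := by
  unfold kj
  have := xj_pos j; have := wj_pos j; have := Real.pi_pos
  positivity

lemma Kj_deriv (j : ℕ) (x : ℝ) : HasDerivAt (Kj j) (kj j x) x := by
  have hw := wj_pos j
  have hp := Real.pi_pos
  have h1 : HasDerivAt (fun x => (x - xj j) / wj j) (1 / wj j) x :=
    ((hasDerivAt_id x).sub_const _).div_const _
  have h2 := (((h1.arctan).div_const Real.pi).const_add (1 / 2)).const_mul (xj j)
  refine h2.congr_deriv ?_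
  unfold kj
  have : wj j ^ 2 + (x - xj j) ^ 2 ≠ 0 := by positivity
  field_simp

lemma xj_summable : Summable xj := by
  unfold xj; exact summable_geometric_of_lt_one (by norm_num) (by norm_num)

lemma xj_tsum : ∑' j, xj j = 2 := by
  unfold xj
  rw [tsum_geometric_of_lt_one (by norm_num) (by norm_num)]; norm_num

lemma Kj_summable (x : ℝ) : Summable fun j => Kj j x :=
  Summable.of_nonneg_of_le (fun j => Kj_nonneg j x) (fun j => Kj_le j x) xj_summable

/-- the bounded increasing function `K` -/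
noncomputable def K (x : ℝ) : ℝ := ∑' j, Kj j x

/-- its derivative -/
noncomputable def kap (x : ℝ) : ℝ := ∑' j, kj j x

lemma K_nonneg (x : ℝ) : 0 ≤ K x := tsum_nonneg fun j => Kj_nonneg j x

lemma K_le (x : ℝ) : K x ≤ 2 := by
  rw [← xj_tsum]
  exact (Kj_summable x).tsum_le_tsum (fun j => Kj_le j x) xj_summable

/-- summable majorant of the derivatives -/
noncomputable def uj (d : ℝ) (j : ℕ) : ℝ := 4 / d ^ 2 * ((j + 1) * (1 / 2) ^ j)

lemma uj_summable (d : ℝ) : Summable (uj d) := by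
  unfold uj
  apply Summable.mul_left
  have h1 : Summable fun j : ℕ => ((j:ℝ) ^ 1 * (1 / 2 : ℝ) ^ j) :=
    summable_pow_mul_geometric_of_norm_lt_one 1 (by norm_num)
  have h2 : Summable fun j : ℕ => ((1 / 2 : ℝ) ^ j) :=
    summable_geometric_of_lt_one (by norm_num) (by norm_num)
  refine (h1.add h2).congr fun j => ?_
  ring

lemma kj_le {d x : ℝ} (hd : 0 < d) (hx : d ≤ x) (j : ℕ) : kj j x ≤ uj d j := by
  have hX := xj_pos j
  have hw := wj_pos j
  have hp := Real.pi_gt_three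
  have hw1 : wj j ≤ 1 := by
    unfold wj
    rw [div_le_one (by positivity)]
    have h1 : ((1:ℝ) / 4) ^ j ≤ 1 := pow_le_one₀ (by norm_num) (by norm_num)
    have : (0:ℝ) ≤ j := Nat.cast_nonneg j
    linarith
  have hu : uj d j = xj j * (4 / d ^ 2 * (j + 1)) := by unfold uj xj; ring
  have hj : (0:ℝ) ≤ j := Nat.cast_nonneg j
  rw [hu]
  unfold kj
  apply mul_le_mul_of_nonneg_left _ hX.le
  have hD : 0 < wj j ^ 2 + (x - xj j) ^ 2 := by positivity
  have h1 : wj j / (wj j ^ 2 + (x - xj j) ^ 2) / Real.pi ≤ wj j / (wj j ^ 2 + (x - xj j) ^ 2) := by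
    apply div_le_self (by positivity); linarith
  refine h1.trans ?_
  rw [div_le_iff₀ hD]
  by_cases hc : xj j ≤ d / 2
  · have h2 : d / 2 ≤ x - xj j := by linarith
    have h3 : (d / 2) ^ 2 ≤ (x - xj j) ^ 2 := by gcongr
    have h4 : wj j ≤ 4 / d ^ 2 * (j + 1) * (d / 2) ^ 2 := by
      have : 4 / d ^ 2 * ((j:ℝ) + 1) * (d / 2) ^ 2 = j + 1 := by field_simp; ring
      rw [this]; linarith
    have h5 : 0 < 4 / d ^ 2 * ((j:ℝ) + 1) := by positivity
    calc wj j ≤ 4 / d ^ 2 * (j + 1) * (d / 2) ^ 2 := h4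
      _ ≤ 4 / d ^ 2 * (j + 1) * (wj j ^ 2 + (x - xj j) ^ 2) := by
        apply mul_le_mul_of_nonneg_left _ h5.le
        nlinarith [sq_nonneg (wj j)]
  · rw [not_le] at hc
    -- here `d < 2 x_j`, and `w_j = x_j^2 / (j+1)`
    have h2 : wj j * (j + 1) = xj j ^ 2 := by
      unfold wj xj
      have : ((j:ℝ) + 1) ≠ 0 := by positivity
      rw [div_mul_cancel₀ _ this, ← pow_mul, mul_comm j 2, pow_mul]; norm_num
    have h3 : d ^ 2 ≤ 4 * xj j ^ 2 := by nlinarith
    have h5 : wj j ≤ 4 / d ^ 2 * (j + 1) * wj j ^ 2 := by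
      have h6 : 4 / d ^ 2 * ((j:ℝ) + 1) * wj j ^ 2 = wj j * (4 * xj j ^ 2 / d ^ 2) := by
        rw [← h2]; ring
      rw [h6]
      have h7 : 1 ≤ 4 * xj j ^ 2 / d ^ 2 := by rw [le_div_iff₀ (by positivity)]; linarith
      nlinarith
    have h8 : 0 < 4 / d ^ 2 * ((j:ℝ) + 1) := by positivity
    nlinarith [mul_nonneg h8.le (sq_nonneg (x - xj j))]

lemma kj_summable {x : ℝ} (hx : 0 < x) : Summable fun j => kj j x :=
  Summable.of_nonneg_of_le (fun j => kj_nonneg j x) (fun j => kj_le hx le_rfl j) (uj_summable x)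

lemma kap_nonneg (x : ℝ) : 0 ≤ kap x := tsum_nonneg fun j => kj_nonneg j x

/-- the constant of the next bound -/
noncomputable def C0 : ℝ := ∑' j : ℕ, ((j:ℝ) + 1) * (1 / 2) ^ j

lemma kap_le {x : ℝ} (hx : 0 < x) : x ^ 2 * kap x ≤ 4 * C0 := by
  have h1 : kap x ≤ ∑' j, uj x j :=
    (kj_summable hx).tsum_le_tsum (fun j => kj_le hx le_rfl j) (uj_summable x)
  have h2 : ∑' j, uj x j = 4 / x ^ 2 * C0 := by
    unfold uj C0; rw [tsum_mul_left]
  rw [h2] at h1
  calc x ^ 2 * kap x ≤ x ^ 2 * (4 / x ^ 2 * C0) := by gcongr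
    _ = 4 * C0 := by field_simp

lemma K_deriv {x : ℝ} (hx : 0 < x) : HasDerivAt K (kap x) x := by
  unfold K kap
  refine hasDerivAt_tsum_of_isPreconnected (uj_summable (x / 2)) isOpen_Ioi
    (t := Ioi (x / 2)) isPreconnected_Ioi (fun j y _ => Kj_deriv j y) ?_
    (y₀ := x) (show x / 2 < x by linarith) (Kj_summable x) (show x / 2 < x by linarith)
  intro j y hy
  rw [Real.norm_eq_abs, abs_of_nonneg (kj_nonneg j y)]
  exact kj_le (by linarith) (le_of_lt hy) j

lemma kap_contAt {x : ℝ} (hx : 0 < x) : ContinuousAt kap x := by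
  have h : ContinuousOn kap (Ioi (x / 2)) := by
    unfold kap
    refine continuousOn_tsum (u := uj (x / 2)) ?_ (uj_summable _) ?_
    · intro j
      have hp := Real.pi_pos
      unfold kj
      apply Continuous.continuousOn
      have : ∀ x, wj j ^ 2 + (x - xj j) ^ 2 ≠ 0 := fun x => by
        have := wj_pos j; positivity
      fun_prop (disch := first | assumption | exact hp.ne')
    · intro j y hy
      rw [Real.norm_eq_abs, abs_of_nonneg (kj_nonneg j y)]
      exact kj_le (by linarith) (le_of_lt hy) j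
  exact h.continuousAt (Ioi_mem_nhds (by linarith))

lemma kap_xj (j : ℕ) : (j + 1) / 4 ≤ xj j * kap (xj j) := by
  have h1 : kj j (xj j) ≤ kap (xj j) :=
    (kj_summable (xj_pos j)).le_tsum j fun i _ => kj_nonneg i _
  have h2 : kj j (xj j) = (j + 1) / (xj j * Real.pi) := by
    unfold kj wj
    have hx := xj_pos j
    have h3 : ((1:ℝ) / 4) ^ j = xj j ^ 2 := by
      unfold xj; rw [← pow_mul, mul_comm j 2, pow_mul]; norm_num
    rw [h3]
    have hp := Real.pi_pos
    have : ((j:ℝ) + 1) ≠ 0 := by positivity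
    rw [sub_self]
    field_simp
    ring
  have hx := xj_pos j
  have hp := Real.pi_pos
  calc ((j:ℝ) + 1) / 4 ≤ (j + 1) / Real.pi := by
        apply div_le_div_of_nonneg_left (by positivity) hp
        linarith [Real.pi_lt_four]
    _ = xj j * kj j (xj j) := by rw [h2]; field_simp
    _ ≤ xj j * kap (xj j) := by gcongr

/-! ### The nonlinearity -/

/-- `h(x) = |x| κ(|x|)` -/
noncomputable def hh (x : ℝ) : ℝ := |x| * kap |x|

/-- the nonlinearity -/
noncomputable def phi (x : ℝ) : ℝ := x + x / (1 + hh x)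

lemma hh_nonneg (x : ℝ) : 0 ≤ hh x := mul_nonneg (abs_nonneg x) (kap_nonneg _)

lemma phi_zero : phi 0 = 0 := by simp [phi]

lemma phi_sector (x : ℝ) : 1 * x ^ 2 ≤ x * phi x ∧ x * phi x ≤ 2 * x ^ 2 := by
  have h := hh_nonneg x
  have h1 : x * phi x = x ^ 2 + x ^ 2 / (1 + hh x) := by unfold phi; ring
  have h2 : 0 ≤ x ^ 2 / (1 + hh x) := by positivity
  have h3 : x ^ 2 / (1 + hh x) ≤ x ^ 2 := div_le_self (sq_nonneg x) (by linarith)
  rw [h1]; constructor <;> linarith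

lemma phi_abs (x : ℝ) : |phi x| ≤ 2 * |x| := by
  have h := hh_nonneg x
  unfold phi
  refine (abs_add_le _ _).trans ?_
  rw [abs_div, abs_of_pos (by linarith : 0 < 1 + hh x)]
  have : |x| / (1 + hh x) ≤ |x| := div_le_self (abs_nonneg x) (by linarith)
  linarith

lemma phi_cont : Continuous phi := by
  rw [continuous_iff_continuousAt]
  intro x
  by_cases hx : x = 0
  · subst hx
    unfold ContinuousAt
    rw [phi_zero]
    have h1 : Tendsto (fun x : ℝ => 2 * |x|) (𝓝 0) (𝓝 0) := by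
      have : Continuous fun x : ℝ => 2 * |x| := by fun_prop
      simpa using this.tendsto 0
    exact squeeze_zero_norm (fun x => by rw [Real.norm_eq_abs]; exact phi_abs x) h1
  · have h1 : ContinuousAt (fun x : ℝ => kap |x|) x :=
      ContinuousAt.comp (f := fun x : ℝ => |x|) (g := kap) (kap_contAt (abs_pos.mpr hx))
        continuous_abs.continuousAt
    have h2 : ContinuousAt hh x := continuous_abs.continuousAt.mul h1
    have h3 : (1 + hh x) ≠ 0 := by have := hh_nonneg x; positivity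
    exact continuousAt_id.add (continuousAt_id.div (continuousAt_const.add h2) h3)

/-- the Lyapunov function -/
noncomputable def W (x : ℝ) : ℝ := x ^ 2 * Real.exp (2 * K |x|)

lemma W_lower (x : ℝ) : x ^ 2 ≤ W x := by
  unfold W
  have : 1 ≤ Real.exp (2 * K |x|) := Real.one_le_exp (by have := K_nonneg |x|; linarith)
  nlinarith [sq_nonneg x]

lemma W_upper (x : ℝ) : W x ≤ Real.exp 4 * x ^ 2 := by
  unfold W
  have : Real.exp (2 * K |x|) ≤ Real.exp 4 := Real.exp_le_exp.mpr (by have := K_le |x|; linarith)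
  nlinarith [sq_nonneg x]

/-- the derivative of `W` -/
noncomputable def W' (x : ℝ) : ℝ := 2 * x * Real.exp (2 * K |x|) * (1 + hh x)

lemma W_deriv_pos {x : ℝ} (hx : 0 < x) : HasDerivAt W (W' x) x := by
  have h1 : HasDerivAt (fun y : ℝ => y ^ 2 * Real.exp (2 * K y))
      (2 * x * Real.exp (2 * K x) + x ^ 2 * (Real.exp (2 * K x) * (2 * kap x))) x := by
    have a := (hasDerivAt_id x).fun_pow 2
    have b := ((K_deriv hx).const_mul 2).exp
    have c := a.fun_mul b
    refine c.congr_deriv ?_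
    simp
  have h2 : HasDerivAt W (2 * x * Real.exp (2 * K x) + x ^ 2 * (Real.exp (2 * K x) * (2 * kap x))) x := by
    refine h1.congr_of_eventuallyEq ?_
    filter_upwards [Ioi_mem_nhds hx] with y hy
    unfold W; rw [abs_of_pos hy]
  refine h2.congr_deriv ?_
  unfold W' hh
  rw [abs_of_pos hx]; ring

lemma W_deriv (x : ℝ) : HasDerivAt W (W' x) x := by
  rcases lt_trichotomy x 0 with hx | hx | hx
  · have h1 := W_deriv_pos (neg_pos.mpr hx)
    have h2 : HasDerivAt (fun y => W (-y)) (W' (-x) * (-1)) x := by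
      have := HasDerivAt.comp x (h₂ := W) (h := fun y : ℝ => -y) h1 (hasDerivAt_neg x)
      exact this
    have h3 : (fun y => W (-y)) = W := by
      funext y; unfold W; rw [abs_neg]; ring
    rw [h3] at h2
    refine h2.congr_deriv ?_
    unfold W' hh
    rw [abs_neg]; ring
  · subst hx
    have h0 : W' 0 = 0 := by simp [W']
    rw [h0, hasDerivAt_iff_isLittleO_nhds_zero]
    have hW0 : W 0 = 0 := by simp [W]
    simp only [zero_add, hW0, sub_zero, smul_zero]
    have hb : W =O[𝓝 0] fun y : ℝ => y ^ 2 := by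
      refine Asymptotics.IsBigO.of_bound (Real.exp 4) (Eventually.of_forall fun y => ?_)
      rw [Real.norm_eq_abs, Real.norm_eq_abs, abs_of_nonneg (le_trans (sq_nonneg y) (W_lower y)),
        abs_of_nonneg (sq_nonneg y)]
      exact W_upper y
    refine hb.trans_isLittleO ?_
    exact Asymptotics.isLittleO_pow_id one_lt_two
  · exact W_deriv_pos hx

lemma C0_nonneg : 0 ≤ C0 := tsum_nonneg fun j => by positivity

lemma W'_bound {R x : ℝ} (hx : |x| ≤ R) : |W' x| ≤ 2 * Real.exp 4 * (R + 4 * C0) := by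
  have h1 : |W' x| = 2 * Real.exp (2 * K |x|) * (|x| + |x| * hh x) := by
    unfold W'
    rw [abs_mul, abs_mul, abs_mul, abs_of_pos (Real.exp_pos _), abs_two,
      abs_of_nonneg (by have := hh_nonneg x; linarith : 0 ≤ 1 + hh x)]
    ring
  have h2 : |x| * hh x ≤ 4 * C0 := by
    by_cases h0 : x = 0
    · subst h0; simp [C0_nonneg]
    · have := kap_le (abs_pos.mpr h0)
      unfold hh
      calc |x| * (|x| * kap |x|) = |x| ^ 2 * kap |x| := by ring
        _ ≤ _ := this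
  have h3 : Real.exp (2 * K |x|) ≤ Real.exp 4 :=
    Real.exp_le_exp.mpr (by have := K_le |x|; linarith)
  have h4 : 0 ≤ |x| + |x| * hh x := by have := hh_nonneg x; positivity
  rw [h1]
  have := Real.exp_pos (2 * K |x|)
  calc 2 * Real.exp (2 * K |x|) * (|x| + |x| * hh x) ≤ 2 * Real.exp 4 * (|x| + |x| * hh x) := by
        gcongr
    _ ≤ 2 * Real.exp 4 * (R + 4 * C0) := by gcongr

lemma ac_comp {F y : ℝ → ℝ} {a b R C : ℝ} (hC : 0 ≤ C)
    (hF : ∀ u v, |u| ≤ R → |v| ≤ R → |F u - F v| ≤ C * |u - v|)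
    (hy : AbsolutelyContinuousOnInterval y a b) (hR : ∀ t ∈ uIcc a b, |y t| ≤ R) :
    AbsolutelyContinuousOnInterval (fun t => F (y t)) a b := by
  rw [absolutelyContinuousOnInterval_iff] at hy ⊢
  intro ε hε
  obtain ⟨δ, hδ, H⟩ := hy (ε / (C + 1)) (by positivity)
  refine ⟨δ, hδ, fun E hE hs => ?_⟩
  have h1 := H E hE hs
  have h2 : ∑ i ∈ Finset.range E.1, dist (F (y (E.2 i).1)) (F (y (E.2 i).2)) ≤
      C * ∑ i ∈ Finset.range E.1, dist (y (E.2 i).1) (y (E.2 i).2) := by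
    rw [Finset.mul_sum]
    refine Finset.sum_le_sum fun i hi => ?_
    rw [Real.dist_eq, Real.dist_eq]
    exact hF _ _ (hR _ (hE.1 i hi).1) (hR _ (hE.1 i hi).2)
  have h3 : 0 ≤ ∑ i ∈ Finset.range E.1, dist (y (E.2 i).1) (y (E.2 i).2) :=
    Finset.sum_nonneg fun _ _ => dist_nonneg
  rw [lt_div_iff₀ (by positivity)] at h1
  nlinarith

lemma W_lip {R : ℝ} (u v : ℝ) (hu : |u| ≤ R) (hv : |v| ≤ R) :
    |W u - W v| ≤ (2 * Real.exp 4 * (R + 4 * C0)) * |u - v| := by
  have := Convex.norm_image_sub_le_of_norm_hasDerivWithin_le (f := W) (f' := W') (s := Icc (-R) R)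
    (x := v) (y := u) (C := 2 * Real.exp 4 * (R + 4 * C0))
    (fun x _ => (W_deriv x).hasDerivWithinAt) (fun x hx => by
      rw [Real.norm_eq_abs]; exact W'_bound (abs_le.mpr hx)) (convex_Icc _ _)
    (abs_le.mp hv) (abs_le.mp hu)
  simpa [Real.norm_eq_abs] using this

/-! ### The system -/

/-- the polynomial `s - 1` -/
def p1 : Fin 1 → ℝ := fun _ => -1

/-- the polynomial `1` -/
def q1 : ℕ → ℝ := fun _ => 1

lemma cvec_eq (v : EuclideanSpace ℝ (Fin 1)) : cvec 1 0 q1 ⬝ᵥ v.ofLp = v 0 := by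
  simp [cvec, q1, dotProduct]

lemma rhs_eq (v : EuclideanSpace ℝ (Fin 1)) (a f : ℝ) :
    (WithLp.toLp 2 ((companion p1).mulVec v.ofLp - a • bvec 1 + f • bvec 1) :
      EuclideanSpace ℝ (Fin 1)) 0 = v 0 - a + f := by
  simp [companion, p1, bvec, Matrix.mulVec, dotProduct]

lemma nrm1 (v : EuclideanSpace ℝ (Fin 1)) : ‖v‖ = |v 0| := by
  rw [EuclideanSpace.norm_eq]
  simp [Real.sqrt_sq_eq_abs]

lemma ac_apply {x : ℝ → EuclideanSpace ℝ (Fin 1)} {a b : ℝ}
    (h : AbsolutelyContinuousOnInterval x a b) :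
    AbsolutelyContinuousOnInterval (fun t => x t 0) a b := by
  rw [absolutelyContinuousOnInterval_iff] at h ⊢
  intro ε hε
  obtain ⟨δ, hδ, H⟩ := h ε hε
  refine ⟨δ, hδ, fun E hE hs => lt_of_le_of_lt (Finset.sum_le_sum fun k _ => ?_) (H E hE hs)⟩
  rw [Real.dist_eq, dist_eq_norm, nrm1]
  simp

lemma scalar {x : ℝ → EuclideanSpace ℝ (Fin 1)} {t₀ : ℝ} {T : EReal}
    (hx : IsSolution p1 0 q1 (fun _ => 1) phi (fun _ => 0) t₀ T x) :
    ∀ᵐ t : ℝ, t₀ < t → (t : EReal) < T → HasDerivAt (fun t => x t 0) (x t 0 - phi (x t 0)) t := by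
  filter_upwards [hx.2.2] with t ht h1 h2
  have h3 := ht h1 h2
  have h4 := ((EuclideanSpace.proj (𝕜 := ℝ) 0 :
    EuclideanSpace ℝ (Fin 1) →L[ℝ] ℝ).hasFDerivAt.comp_hasDerivAt t h3)
  refine h4.congr_deriv ?_
  have h5 := rhs_eq (x t) (1 * phi (cvec 1 0 q1 ⬝ᵥ (x t).ofLp)) 0
  rw [cvec_eq] at h5
  rw [cvec_eq]
  exact h5.trans (by ring)

lemma exp_stable : ExpStable p1 0 q1 (fun _ => 1) phi := by
  refine ⟨1, Real.exp 2, one_pos, Real.exp_pos _, ?_⟩
  intro t₀ T x _ _ hx t ht htT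
  rw [nrm1, nrm1]
  set y : ℝ → ℝ := fun t => x t 0 with hy
  have hac : AbsolutelyContinuousOnInterval y t₀ t := ac_apply (hx.1 t ht htT)
  obtain ⟨R, hR⟩ := hac.exists_bound
  have hR' : ∀ s ∈ uIcc t₀ t, |y s| ≤ R := fun s hs => by
    have := hR s hs; rwa [Real.norm_eq_abs] at this
  have hR0 : 0 ≤ R := le_trans (abs_nonneg _) (hR' t₀ left_mem_uIcc)
  have hVac : AbsolutelyContinuousOnInterval (fun t => W (y t)) t₀ t := by
    refine ac_comp (R := R) (C := 2 * Real.exp 4 * (R + 4 * C0)) ?_ (fun u v => W_lip u v) hac hR'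
    have := C0_nonneg
    positivity
  have hexp : AbsolutelyContinuousOnInterval (fun s : ℝ => Real.exp (2 * (s - t₀))) t₀ t := by
    apply ContDiffOn.absolutelyContinuousOnInterval
    apply ContDiff.contDiffOn
    fun_prop
  have hV := hVac.fun_mul hexp
  have hder : ∀ᵐ s : ℝ, s ∈ uIcc t₀ t → HasDerivAt (fun t => W (y t) * Real.exp (2 * (t - t₀))) 0 s := by
    have hne : ∀ᵐ s : ℝ, s ≠ t₀ := by simp [ae_iff, measure_singleton]
    filter_upwards [scalar hx, hne] with s hs hs0 hs1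
    rw [uIcc_of_le ht] at hs1
    have h1 : t₀ < s := lt_of_le_of_ne hs1.1 (Ne.symm hs0)
    have h2 : (s : EReal) < T := lt_of_le_of_lt (by exact_mod_cast hs1.2) htT
    have h3 : HasDerivAt y (y s - phi (y s)) s := hs h1 h2
    have h4 : HasDerivAt (fun t => W (y t)) (W' (y s) * (y s - phi (y s))) s :=
      (W_deriv (y s)).comp s h3
    have h5 : W' (y s) * (y s - phi (y s)) = -2 * W (y s) := by
      unfold W' phi W
      have := hh_nonneg (y s)
      have h6 : (1 + hh (y s)) ≠ 0 := by positivity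
      field_simp
      ring
    rw [h5] at h4
    have h6 : HasDerivAt (fun t : ℝ => Real.exp (2 * (t - t₀))) (Real.exp (2 * (s - t₀)) * 2) s := by
      have := (((hasDerivAt_id s).sub_const t₀).const_mul 2).exp
      simpa using this
    refine (h4.fun_mul h6).congr_deriv ?_
    ring
  obtain ⟨C, hC⟩ := hV.const_of_ae_hasDerivAt_zero hder
  have e1 := hC t right_mem_uIcc
  have e2 := hC t₀ left_mem_uIcc
  simp only [sub_self, mul_zero, Real.exp_zero, mul_one] at e2
  have e3 : W (y t) * Real.exp (2 * (t - t₀)) = W (y t₀) := by rw [e1, e2]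
  have e4 : y t ^ 2 * Real.exp (2 * (t - t₀)) ≤ Real.exp 4 * y t₀ ^ 2 := by
    have a := W_lower (y t)
    have b := W_upper (y t₀)
    have c := Real.exp_pos (2 * (t - t₀))
    nlinarith
  have e5 : (|y t| * Real.exp (t - t₀)) ^ 2 ≤ (Real.exp 2 * |y t₀|) ^ 2 := by
    have a : Real.exp (2 * (t - t₀)) = Real.exp (t - t₀) ^ 2 := by
      rw [← Real.exp_nat_mul]; push_cast; ring_nf
    have b : Real.exp 4 = Real.exp 2 ^ 2 := by
      rw [← Real.exp_nat_mul]; norm_num
    rw [mul_pow, mul_pow, sq_abs, sq_abs, ← a, ← b]; exact e4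
  have e6 : |y t| * Real.exp (t - t₀) ≤ Real.exp 2 * |y t₀| :=
    (pow_le_pow_iff_left₀ (by positivity) (by positivity) two_ne_zero).mp e5
  have e7 : Real.exp (-1 * (t - t₀)) * Real.exp (t - t₀) = 1 := by
    rw [← Real.exp_add]; simp
  have e8 := Real.exp_pos (-1 * (t - t₀))
  calc |y t| = |y t| * Real.exp (t - t₀) * Real.exp (-1 * (t - t₀)) := by
        rw [mul_assoc, mul_comm (Real.exp (t - t₀)), e7, mul_one]
    _ ≤ Real.exp 2 * |y t₀| * Real.exp (-1 * (t - t₀)) := by gcongr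

lemma gain_admissible : AdmissibleGain (fun _ => 1) := by
  refine ⟨⟨1, one_pos, fun _ _ => le_rfl⟩, fun T _ => ?_⟩
  exact (LipschitzWith.const (1:ℝ)).lipschitzOnWith.absolutelyContinuousOnInterval

/-- the constant solutions: the dip at `x_j` lets a small input hold the state at `x_j` -/
lemma const_solution (j : ℕ) (T : ℝ) :
    IsSolution p1 0 q1 (fun _ => 1) phi
      (fun t => if t < T then xj j / (1 + hh (xj j)) else 0) 0 (T : EReal)
      (fun _ => EuclideanSpace.single 0 (xj j)) := by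
  refine ⟨fun s _ _ => ?_, fun s _ _ => ?_, Eventually.of_forall fun t _ ht => ?_⟩
  · exact (LipschitzWith.const _).lipschitzOnWith.absolutelyContinuousOnInterval
  · exact intervalIntegrable_const
  · have ht' : t < T := by exact_mod_cast ht
    have h : (WithLp.toLp 2 ((companion p1).mulVec (EuclideanSpace.single (0 : Fin 1) (xj j)).ofLp
        - (1 * phi (cvec 1 0 q1 ⬝ᵥ (EuclideanSpace.single (0 : Fin 1) (xj j)).ofLp)) • bvec 1
        + (if t < T then xj j / (1 + hh (xj j)) else 0) • bvec 1) : EuclideanSpace ℝ (Fin 1)) = 0 := by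
      ext i
      fin_cases i
      have h5 := rhs_eq (EuclideanSpace.single (0 : Fin 1) (xj j))
        (1 * phi (cvec 1 0 q1 ⬝ᵥ (EuclideanSpace.single (0 : Fin 1) (xj j)).ofLp))
        (if t < T then xj j / (1 + hh (xj j)) else 0)
      refine h5.trans ?_
      rw [cvec_eq, if_pos ht']
      simp [phi]
    simp only []
    rw [h]
    exact hasDerivAt_const t _

lemma not_L2 : ¬ L2Stable p1 0 q1 (fun _ => 1) phi := by
  intro H
  obtain ⟨η, hη⟩ := H 2 2 (by norm_num) (by norm_num)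
  obtain ⟨j, hj⟩ := exists_nat_gt (4 * (|η| + 1))
  have hx := xj_pos j
  have hh0 := hh_nonneg (xj j)
  have hbig : ((j:ℝ) + 1) / 4 ≤ hh (xj j) := by
    unfold hh; rw [abs_of_pos hx]; exact kap_xj j
  set D : ℝ := 1 + hh (xj j) with hD
  have hD0 : 0 < D := by linarith
  set T : ℝ := D ^ 2 / xj j ^ 2 with hT
  have hT0 : 0 < T := by positivity
  have hf : Measurable (fun t : ℝ => if t < T then xj j / D else (0:ℝ)) :=
    Measurable.ite measurableSet_Iio measurable_const measurable_const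
  have key := hη 0 (T : EReal) _ (fun _ => EuclideanSpace.single 0 (xj j)) le_rfl
    (by exact_mod_cast hT0) hf (const_solution j T) (by
      rw [nrm1]
      simp only [EuclideanSpace.single_apply, if_true]
      rw [abs_of_pos hx]
      linarith [xj_le j]) ?_
  · have e1 : {t : ℝ | 0 < t ∧ (t : EReal) < (T : EReal)} = Ioo 0 T := by
      ext t; simp [EReal.coe_lt_coe_iff]
    rw [e1] at key
    have e2 : ‖(EuclideanSpace.single 0 (xj j) : EuclideanSpace ℝ (Fin 1))‖ = xj j := by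
      rw [nrm1]
      simp only [EuclideanSpace.single_apply, if_true]
      exact abs_of_pos hx
    rw [e2] at key
    rw [setLIntegral_const, Real.volume_Ioo, sub_zero, ← ENNReal.ofReal_mul (by positivity)] at key
    have e3 : xj j ^ 2 * T = D ^ 2 := by rw [hT]; field_simp
    rw [e3] at key
    have e4 : D ^ 2 ≤ |η| := by
      have h1 : ENNReal.ofReal (D ^ 2) ≤ ENNReal.ofReal |η| :=
        key.trans (ENNReal.ofReal_le_ofReal (le_abs_self η))
      exact (ENNReal.ofReal_le_ofReal_iff (abs_nonneg η)).mp h1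
    have e5 : |η| + 1 < D := by rw [hD]; linarith
    nlinarith [abs_nonneg η]
  · have e1 : ∀ t : ℝ, ENNReal.ofReal ((if t < T then xj j / D else (0:ℝ)) ^ 2) =
        (Iio T).indicator (fun _ => ENNReal.ofReal ((xj j / D) ^ 2)) t := by
      intro t
      by_cases h : t < T
      · simp [h]
      · simp [h]
    simp_rw [e1]
    rw [lintegral_indicator measurableSet_Iio, Measure.restrict_restrict measurableSet_Iio,
      setLIntegral_const, Iio_inter_Ioi, Real.volume_Ioo, sub_zero,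
      ← ENNReal.ofReal_mul (by positivity)]
    have e3 : (xj j / D) ^ 2 * T = 1 := by rw [hT]; field_simp
    rw [e3]
    exact (ENNReal.ofReal_lt_ofReal_iff (by norm_num)).mpr (by norm_num)

/-- The equivalence of exponential stability and `L₂`-stability fails: for the first-order system
`x' = x - φ(x) + f`, i.e. `n = 1`, `m = 0`, `p(s) = s - 1`, `q(s) = 1`, `k = 1`, there is a continuous
`φ` with `σ² ≤ σ φ(σ) ≤ 2 σ²` for which the null solution of the unforced system is exponentially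
stable while the forced system is not `L₂`-stable. -/
theorem result :
    ¬ (∀ (n m : ℕ) (p : Fin n → ℝ) (q : ℕ → ℝ) (k φ : ℝ → ℝ), m < n → AdmissibleGain k →
        AdmissibleNonlinearity φ → (ExpStable p m q k φ ↔ L2Stable p m q k φ)) ∧
    ∃ φ : ℝ → ℝ, Continuous φ ∧ φ 0 = 0 ∧ (∀ σ : ℝ, 1 * σ ^ 2 ≤ σ * φ σ ∧ σ * φ σ ≤ 2 * σ ^ 2) ∧
      ExpStable (fun _ : Fin 1 => (-1 : ℝ)) 0 (fun _ => 1) (fun _ => 1) φ ∧
      ¬ L2Stable (fun _ : Fin 1 => (-1 : ℝ)) 0 (fun _ => 1) (fun _ => 1) φ := by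
  have h2 : ∃ φ : ℝ → ℝ, Continuous φ ∧ φ 0 = 0 ∧
      (∀ σ : ℝ, 1 * σ ^ 2 ≤ σ * φ σ ∧ σ * φ σ ≤ 2 * σ ^ 2) ∧
      ExpStable (fun _ : Fin 1 => (-1 : ℝ)) 0 (fun _ => 1) (fun _ => 1) φ ∧
      ¬ L2Stable (fun _ : Fin 1 => (-1 : ℝ)) 0 (fun _ => 1) (fun _ => 1) φ :=
    ⟨phi, phi_cont, phi_zero, phi_sector, exp_stable, not_L2⟩
  refine ⟨fun H => ?_, h2⟩
  obtain ⟨φ, _, h0, hs, he, hn⟩ := h2
  exact hn ((H 1 0 _ _ _ φ one_pos gain_admissible
    ⟨h0, 1, 2, one_pos, one_lt_two, fun σ _ => hs σ⟩).mp he)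

end Pool.Agent.Results.MP_d56d33_an.NotEquivalent
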